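import Pool.Agent.Lib.MP_422011_al.Fin
import Pool.Agent.Lib.MP_422011_al.Inj
import Pool.Agent.Lib.MP_422011_al.Hyp

/-!
# A marked free group with two distinct entropy minimising weights

The marked group is the free group on `z, x_1, …, x_N` (`N` large) with the generating set of all
`z^a x z^(-b)`, `x` a signed letter among the `x_i^(±1)`, `(a, b)` in an explicit set of `272` pairs.
-/

namespace Pool.Agent.Results.MP_422011_al.NonUnique

open Filter Pool.Agent.Lib.MP_422011_al

/-- Finite symmetric generating sets. -/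
def IsMarking {G : Type} [Group G] (S : Finset G) : Prop :=
  (∀ s ∈ S, s⁻¹ ∈ S) ∧ Subgroup.closure (S : Set G) = ⊤

/-- A normalised weight on `S`: positive, `w s = w (s⁻¹)`, total mass `1`. -/
def IsNormalizedWeight {G : Type} [Group G] (S : Finset G) (w : S → ℝ) : Prop :=
  (∀ s, 0 < w s) ∧ (∀ s t : S, (t : G) = (s : G)⁻¹ → w t = w s) ∧ ∑ s, w s = 1

/-- The weighted word metric `d_w(x, y)`: the least cost of a word in `S` spelling `y⁻¹ x`. -/
noncomputable def wordDist {G : Type} [Group G] (S : Finset G) (w : S → ℝ) (x y : G) : ℝ :=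
  sInf {c : ℝ | ∃ l : List S, (l.map fun s : S => (s : G)).prod = y⁻¹ * x ∧ (l.map w).sum = c}

/-- `h` is the volume entropy of `w`: the limit of `log |B_w(R)| / R`, where `B_w(R)` is the closed
ball about the identity. -/
def IsVolumeEntropy {G : Type} [Group G] (S : Finset G) (w : S → ℝ) (h : ℝ) : Prop :=
  Tendsto (fun R : ℝ => Real.log (Nat.card {g : G // wordDist S w g 1 ≤ R}) / R) atTop (nhds h)

/-- Gromov hyperbolicity of a group: some finite symmetric generating set whose word metric (all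
weights equal to one) satisfies the four point condition. -/
def IsHyperbolicGroup (G : Type) [Group G] : Prop :=
  ∃ S : Finset G, IsMarking S ∧ ∃ δ : ℝ, ∀ x y z t : G,
    wordDist S (fun _ => 1) x y + wordDist S (fun _ => 1) z t ≤
      max (wordDist S (fun _ => 1) x z + wordDist S (fun _ => 1) y t)
        (wordDist S (fun _ => 1) x t + wordDist S (fun _ => 1) y z) + 2 * δ

/-- Non-elementary: no cyclic subgroup of finite index (this excludes finite groups as well). -/
def IsNonElementary (G : Type) [Group G] : Prop :=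
  ∀ H : Subgroup G, H.FiniteIndex → ¬ IsCyclic H

/-- The word metric of a finite generating set as an indexed weighted length. -/
theorem wordDist_eq {G : Type} [Group G] (S : Finset G) (w : S → ℝ) (x y : G) :
    wordDist S w x y = wlen (fun s : S => (s : G)) w (y⁻¹ * x) := by
  unfold wordDist wlen
  congr 1

theorem isVolumeEntropy_iff {G : Type} [Group G] (S : Finset G) (w : S → ℝ) (h : ℝ) :
    IsVolumeEntropy S w h ↔ IsEnt (fun s : S => (s : G)) w h := by
  unfold IsVolumeEntropy IsEnt
  simp only [wordDist_eq, inv_one, one_mul]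

/-- Transport of the weighted length along a bijection of the index types. -/
theorem wlen_equiv {G : Type} [Group G] {ι κ : Type} (e : ι ≃ κ) (u : ι → G) (v : κ → G)
    (huv : ∀ i, v (e i) = u i) (w : κ → ℝ) (g : G) :
    wlen v w g = wlen u (fun i => w (e i)) g := by
  have h1 : ∀ l : List ι, wval v (l.map e) = wval u l := by
    intro l
    simp only [wval, List.map_map]
    congr 1
    exact List.map_congr_left fun i _ => huv i
  have h2 : ∀ l : List ι, wcost w (l.map e) = wcost (fun i => w (e i)) l := by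
    intro l
    simp only [wcost, List.map_map]
    rfl
  unfold wlen
  congr 1
  ext c
  constructor
  · rintro ⟨m, hm, rfl⟩
    refine ⟨m.map e.symm, ?_, ?_⟩
    · show wval u _ = g
      rw [← h1, List.map_map]
      simpa using hm
    · rw [← h2, List.map_map]
      simp
  · rintro ⟨l, hl, rfl⟩
    exact ⟨l.map e, (h1 l).trans hl, h2 l⟩

theorem isEnt_equiv {G : Type} [Group G] {ι κ : Type} (e : ι ≃ κ) (u : ι → G) (v : κ → G)
    (huv : ∀ i, v (e i) = u i) (w : κ → ℝ) (h : ℝ) :
    IsEnt v w h ↔ IsEnt u (fun i => w (e i)) h := by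
  unfold IsEnt
  simp only [wlen_equiv e u v huv]

/-- The generating set as a finite set of elements. -/
noncomputable def SS (N : ℕ) : Finset (FG N) := by
  classical
  exact Finset.univ.image (gen (N := N))

theorem mem_SS {N : ℕ} {g : FG N} : g ∈ SS N ↔ ∃ i : Idx N, gen i = g := by
  classical
  simp [SS]

/-- The bijection between indices and generators. -/
noncomputable def eSS (N : ℕ) : Idx N ≃ SS N :=
  Equiv.ofBijective (fun i => ⟨gen i, mem_SS.2 ⟨i, rfl⟩⟩) (by
    constructor
    · intro i j hij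
      exact gen_injective (Subtype.ext_iff.1 hij)
    · rintro ⟨g, hg⟩
      obtain ⟨i, hi⟩ := mem_SS.1 hg
      exact ⟨i, Subtype.ext hi⟩)

theorem eSS_apply {N : ℕ} (i : Idx N) : ((eSS N i : SS N) : FG N) = gen i := rfl

theorem marking_SS {N : ℕ} (hN : 1 ≤ N) : IsMarking (SS N) := by
  constructor
  · intro s hs
    obtain ⟨i, rfl⟩ := mem_SS.1 hs
    exact mem_SS.2 ⟨iinv i, gen_iinv i⟩
  · rw [Subgroup.eq_top_iff']
    intro g
    obtain ⟨l, rfl⟩ := gens_gen hN g
    unfold wval
    apply Subgroup.list_prod_mem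
    intro x hx
    obtain ⟨i, _, rfl⟩ := List.mem_map.1 hx
    exact Subgroup.subset_closure (mem_SS.2 ⟨i, rfl⟩)

/-- Positive weights on a marking: the family of its elements generates as a monoid. -/
theorem gens_of_marking {G : Type} [Group G] {S : Finset G} (hS : IsMarking S) :
    Gens (fun s : S => (s : G)) := by
  intro g
  have hg : g ∈ Subgroup.closure (S : Set G) := by rw [hS.2]; trivial
  induction hg using Subgroup.closure_induction with
  | mem x hx => exact ⟨[⟨x, hx⟩], by simp [wval]⟩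
  | one => exact ⟨[], by simp [wval]⟩
  | mul x y _ _ h1 h2 =>
    obtain ⟨l, hl⟩ := h1
    obtain ⟨m, hm⟩ := h2
    exact ⟨l ++ m, by rw [wval_append, hl, hm]⟩
  | inv x _ h1 =>
    obtain ⟨l, hl⟩ := h1
    rw [← hl]
    clear hl
    induction l with
    | nil => exact ⟨[], by simp [wval]⟩
    | cons i l ih =>
      obtain ⟨m, hm⟩ := ih
      refine ⟨m ++ [⟨(i : G)⁻¹, hS.1 _ i.2⟩], ?_⟩
      rw [wval_append, hm, wval_cons, wval_cons, wval_nil]
      simp

/-- Translation between normalised weights on the set and on the index type. -/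
theorem norm_iff {N : ℕ} (w : SS N → ℝ) : IsNormalizedWeight (SS N) w ↔
    ((∀ i, 0 < w (eSS N i)) ∧ (∀ i, w (eSS N (iinv i)) = w (eSS N i)) ∧
      ∑ i, w (eSS N i) = 1) := by
  have hsum : ∑ i, w (eSS N i) = ∑ s, w s := (eSS N).sum_comp w
  constructor
  · rintro ⟨h1, h2, h3⟩
    refine ⟨fun i => h1 _, fun i => h2 _ _ ?_, hsum.trans h3⟩
    rw [eSS_apply, eSS_apply, gen_iinv]
  · rintro ⟨h1, h2, h3⟩
    refine ⟨fun s => ?_, fun s t hst => ?_, hsum.symm.trans h3⟩
    · obtain ⟨i, rfl⟩ := (eSS N).surjective s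
      exact h1 i
    · obtain ⟨i, rfl⟩ := (eSS N).surjective s
      have : t = eSS N (iinv i) := by
        apply Subtype.ext
        rw [hst, eSS_apply, eSS_apply, gen_iinv]
      rw [this]
      exact h2 i

/-- The standard generators of the free group: the letters and their inverses. -/
noncomputable def stdS (N : ℕ) : Finset (FG N) := by
  classical
  exact Finset.univ.image fun p : Option (Fin N) × Bool => FreeGroup.mk [p]

theorem mem_stdS {N : ℕ} {g : FG N} :
    g ∈ stdS N ↔ ∃ p : Option (Fin N) × Bool, FreeGroup.mk [p] = g := by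
  classical
  simp only [stdS, Finset.mem_image, Finset.mem_univ, true_and]

theorem marking_stdS (N : ℕ) : IsMarking (stdS N) := by
  constructor
  · intro s hs
    obtain ⟨p, rfl⟩ := mem_stdS.1 hs
    refine mem_stdS.2 ⟨(p.1, !p.2), ?_⟩
    simp [FreeGroup.inv_mk, FreeGroup.invRev]
  · rw [eq_top_iff, ← FreeGroup.closure_range_of]
    apply Subgroup.closure_mono
    rintro _ ⟨o, rfl⟩
    exact mem_stdS.2 ⟨(o, true), rfl⟩

/-- The word metric of the standard generators is the norm. -/
theorem wordDist_std {N : ℕ} (x y : FG N) :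
    wordDist (stdS N) (fun _ => 1) x y = ((y⁻¹ * x).norm : ℝ) := by
  rw [wordDist_eq]
  have hcost : ∀ l : List (stdS N), wcost (fun _ => (1 : ℝ)) l = l.length := by
    intro l
    simp [wcost]
  have hle : ∀ l : List (stdS N), (wval (fun s : stdS N => (s : FG N)) l).norm ≤ l.length := by
    intro l
    induction l with
    | nil => simp [wval]
    | cons s l ih =>
      rw [wval_cons]
      obtain ⟨p, hp⟩ := mem_stdS.1 s.2
      have h1 : ((s : FG N)).norm ≤ 1 := by
        rw [← hp]
        simpa using FreeGroup.norm_mk_le (L₁ := [p])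
      have h2 := FreeGroup.norm_mul_le (s : FG N) (wval (fun s : stdS N => (s : FG N)) l)
      rw [List.length_cons]
      omega
  generalize y⁻¹ * x = g
  apply le_antisymm
  · have hex : ∀ L : List (Option (Fin N) × Bool), ∃ l : List (stdS N),
        wval (fun s : stdS N => (s : FG N)) l = FreeGroup.mk L ∧ l.length = L.length := by
      intro L
      induction L with
      | nil => exact ⟨[], by simp [wval, FreeGroup.one_eq_mk], rfl⟩
      | cons p L ih =>
        obtain ⟨l, hl, hl'⟩ := ih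
        refine ⟨⟨FreeGroup.mk [p], mem_stdS.2 ⟨p, rfl⟩⟩ :: l, ?_, by simp [hl']⟩
        rw [wval_cons, hl]
        simp [FreeGroup.mul_mk]
    obtain ⟨l, hl, hl'⟩ := hex g.toWord
    rw [FreeGroup.mk_toWord] at hl
    have := wlen_le (w := fun _ : stdS N => (1 : ℝ)) (fun _ => zero_le_one) hl
    rw [hcost, hl'] at this
    exact this
  · obtain ⟨l, hl, hl'⟩ := exists_min (gens_of_marking (marking_stdS N))
      (w := fun _ : stdS N => (1 : ℝ)) (fun _ => one_pos) g
    rw [← hl', hcost, ← hl]
    exact_mod_cast hle l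

theorem hyp_FG (N : ℕ) : IsHyperbolicGroup (FG N) := by
  refine ⟨stdS N, marking_stdS N, 0, ?_⟩
  intro x y z t
  simp only [wordDist_std]
  have h := four_point y x t z
  have e1 : (x⁻¹ * t).norm = (t⁻¹ * x).norm := by
    rw [← FreeGroup.norm_inv_eq]; simp
  have e2 : (t⁻¹ * y).norm = (t⁻¹ * y).norm := rfl
  have e3 : (z⁻¹ * y).norm = (y⁻¹ * z).norm := by
    rw [← FreeGroup.norm_inv_eq]; simp
  have e4 : (x⁻¹ * z).norm = (z⁻¹ * x).norm := by
    rw [← FreeGroup.norm_inv_eq]; simp
  have e5 : (y⁻¹ * t).norm = (t⁻¹ * y).norm := by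
    rw [← FreeGroup.norm_inv_eq]; simp
  rw [e1, e4, e5] at h
  rw [e3]
  have h' : (((y⁻¹ * x).norm + (t⁻¹ * z).norm : ℕ) : ℝ) ≤
      max (((t⁻¹ * y).norm + (z⁻¹ * x).norm : ℕ) : ℝ) (((y⁻¹ * z).norm + (t⁻¹ * x).norm : ℕ) : ℝ) := by
    exact_mod_cast h
  push_cast at h'
  rw [max_comm] at h'
  have e6 : ((z⁻¹ * x).norm : ℝ) + (t⁻¹ * y).norm = (t⁻¹ * y).norm + (z⁻¹ * x).norm := add_comm _ _
  have e7 : ((t⁻¹ * x).norm : ℝ) + (y⁻¹ * z).norm = (y⁻¹ * z).norm + (t⁻¹ * x).norm := add_comm _ _
  rw [e6, e7, max_comm]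
  linarith

theorem result : ∃ (G : Type) (_ : Group G) (S : Finset G),
    IsFreeGroup G ∧ (∀ g : G, g ≠ 1 → ¬ IsOfFinOrder g) ∧ IsHyperbolicGroup G ∧
    IsNonElementary G ∧ IsMarking S ∧
    (∀ w : S → ℝ, IsNormalizedWeight S w → ∃ h, IsVolumeEntropy S w h) ∧
    ∃ w₀ w₁ : S → ℝ, w₀ ≠ w₁ ∧ IsNormalizedWeight S w₀ ∧ IsNormalizedWeight S w₁ ∧
      ∃ h, IsVolumeEntropy S w₀ h ∧ IsVolumeEntropy S w₁ h ∧
        ∀ w : S → ℝ, IsNormalizedWeight S w → ∀ h', IsVolumeEntropy S w h' → h ≤ h' := by
  obtain ⟨N, hN⟩ : ∃ N : ℕ, 10 ^ 14 ≤ N := ⟨_, le_rfl⟩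
  have hN1 : 1 ≤ N := le_trans (by norm_num) hN
  obtain ⟨w0, w1, hne, hn0, hn1, h, he0, he1, hmin⟩ := main_idx hN
  have hent : ∀ (w : SS N → ℝ) (h : ℝ), IsVolumeEntropy (SS N) w h ↔
      IsEnt gen (fun i => w (eSS N i)) h := by
    intro w h
    rw [isVolumeEntropy_iff]
    exact isEnt_equiv (eSS N) gen _ (fun i => eSS_apply i) w h
  refine ⟨FG N, inferInstance, SS N, inferInstance, ?_, hyp_FG N, ?_, marking_SS hN1, ?_,
    fun s => w0 ((eSS N).symm s), fun s => w1 ((eSS N).symm s), ?_, ?_, ?_, h, ?_, ?_, ?_⟩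
  · intro g hg hf
    obtain ⟨n, hn, hgn⟩ := isOfFinOrder_iff_pow_eq_one.1 hf
    exact hg (pow_left_injective hn.ne' (by simpa using hgn))
  · intro H hH hc
    exact not_virt_cyclic (a := (none : Option (Fin N))) (b := some ⟨0, hN1⟩) (by simp) H hH hc
  · intro w hw
    obtain ⟨h, _, h1, _⟩ := exists_ent (gens_of_marking (marking_SS hN1)) (w := w) hw.1
    exact ⟨h, (isVolumeEntropy_iff _ _ _).2 h1⟩
  · intro heq
    apply hne
    funext i
    have := congrFun heq (eSS N i)
    simpa using this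
  · rw [norm_iff]; simpa using hn0
  · rw [norm_iff]; simpa using hn1
  · rw [hent]; simpa using he0
  · rw [hent]; simpa using he1
  · intro w hw h' hh'
    rw [norm_iff] at hw
    rw [hent] at hh'
    exact hmin _ hw.1 hw.2.1 hw.2.2 h' hh'

end Pool.Agent.Results.MP_422011_al.NonUnique
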